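import Pool.Agent.U481.HW.Stm

/-!
# Project HW, package STEP: the local step of the sparse domination
-/

set_option autoImplicit false

open MeasureTheory Filter Topology Set
open scoped ENNReal NNReal

namespace Pool.Agent.U263.HW.STEP

open Pool.Dav Pool.Agent.U481.HW

lemma vol_DD (q : ℤ × ℤ) : volume (DD q) = ENNReal.ofReal (2 ^ q.1) := by
  unfold DD
  rw [Real.volume_Ico]
  congr 1
  ring

lemma vol_D3 (q : ℤ × ℤ) : volume (D3 q) = 3 * volume (DD q) := by
  rw [vol_DD]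
  unfold D3
  rw [Real.volume_Ico, show ((q.2 : ℝ) + 2) * 2 ^ q.1 - ((q.2 : ℝ) - 1) * 2 ^ q.1 = 3 * 2 ^ q.1 by ring,
    ENNReal.ofReal_mul (by norm_num)]
  norm_num

lemma vol_ne_zero (q : ℤ × ℤ) : volume (DD q) ≠ 0 := by
  rw [vol_DD]
  have : (0 : ℝ) < 2 ^ q.1 := by positivity
  simpa using this

lemma vol_ne_top (q : ℤ × ℤ) : volume (DD q) ≠ ⊤ := by
  rw [vol_DD]
  exact ENNReal.ofReal_ne_top

lemma meas_D3 (q : ℤ × ℤ) : MeasurableSet (D3 q) := measurableSet_Ico

lemma meas_DD (q : ℤ × ℤ) : MeasurableSet (DD q) := measurableSet_Ico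

lemma weak_le (h : ℝ → ℝ≥0∞) {K a v M : ℝ≥0∞} (hK : K ≠ 0) (hK' : K ≠ ⊤) (ha : a ≠ ⊤)
    (hw : ∀ t : ℝ≥0∞, t * volume {x | t < h x} ≤ K * (a * v)) :
    M * volume {x | M * K * a < h x} ≤ v := by
  rcases eq_or_ne a 0 with rfl | ha0
  · have h0 : volume {x | 0 < h x} = 0 := by
      have e : {x | 0 < h x} = ⋃ n : ℕ, {x | ((n : ℝ≥0∞) + 1)⁻¹ < h x} := by
        ext x
        simp only [mem_setOf_eq, mem_iUnion]
        constructor
        · intro hx
          obtain ⟨n, hn⟩ := ENNReal.exists_inv_nat_lt hx.ne'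
          refine ⟨n, lt_of_le_of_lt ?_ hn⟩
          exact ENNReal.inv_le_inv.2 le_self_add
        · rintro ⟨n, hn⟩
          exact lt_of_le_of_lt zero_le' hn
      rw [e, measure_iUnion_null_iff]
      intro n
      have h1 := hw (((n : ℝ≥0∞) + 1)⁻¹)
      rw [zero_mul, mul_zero, nonpos_iff_eq_zero, mul_eq_zero] at h1
      rcases h1 with h1 | h1
      · exfalso
        rw [ENNReal.inv_eq_zero] at h1
        exact (ENNReal.add_ne_top.2 ⟨ENNReal.natCast_ne_top n, ENNReal.one_ne_top⟩) h1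
      · exact h1
    rw [mul_zero, h0, mul_zero]
    exact zero_le'
  · have h1 := hw (M * K * a)
    have h2 : K * a * (M * volume {x | M * K * a < h x}) ≤ K * a * v := by
      calc K * a * (M * volume {x | M * K * a < h x})
          = M * K * a * volume {x | M * K * a < h x} := by ring
        _ ≤ K * (a * v) := h1
        _ = K * a * v := by ring
    exact (ENNReal.mul_le_mul_iff_right (mul_ne_zero hK ha0) (ENNReal.mul_ne_top hK' ha)).1 h2

lemma lint_lo (f : ℝ → ℂ) (r : ℤ × ℤ) :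
    ∫⁻ y, ‖lo f r y‖ₑ = 3 * (av f r * volume (DD r)) := by
  have h1 : ∫⁻ y, ‖lo f r y‖ₑ = ∫⁻ y in D3 r, ‖f y‖ₑ := by
    rw [← lintegral_indicator (meas_D3 r)]
    refine lintegral_congr fun y => ?_
    unfold lo
    by_cases hy : y ∈ D3 r
    · simp [hy]
    · simp [hy]
  have h2 : av f r * volume (D3 r) = ∫⁻ y in D3 r, ‖f y‖ₑ := by
    unfold av
    refine ENNReal.div_mul_cancel ?_ ?_
    · rw [vol_D3]
      exact mul_ne_zero (by norm_num) (vol_ne_zero r)
    · rw [vol_D3]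
      exact ENNReal.mul_ne_top (by norm_num) (vol_ne_top r)
  rw [h1, ← h2, vol_D3]
  ring

lemma av_ne_top {f : ℝ → ℂ} (hf : Integrable f) (r : ℤ × ℤ) : av f r ≠ ⊤ := by
  unfold av
  refine ENNReal.div_ne_top ?_ ?_
  · exact ((lintegral_mono_set (subset_univ _)).trans_lt (by
      rw [Measure.restrict_univ]; exact hf.2)).ne
  · rw [vol_D3]
    exact mul_ne_zero (by norm_num) (vol_ne_zero r)

lemma int_lo {f : ℝ → ℂ} (hf : Integrable f) (r : ℤ × ℤ) : Integrable (lo f r) :=
  hf.indicator (meas_D3 r)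

lemma MM_congr {f g : ℝ → ℝ≥0∞} (h : f =ᵐ[volume] g) : MM volume f = MM volume g := by
  funext x
  unfold MM
  refine iSup_congr fun a => iSup_congr fun b => iSup_congr fun _ => ?_
  rw [lintegral_congr_ae (ae_restrict_of_ae h)]

lemma MM_mono {f g : ℝ → ℝ≥0∞} (h : ∀ x, f x ≤ g x) (x : ℝ) : MM volume f x ≤ MM volume g x := by
  unfold MM
  refine iSup_mono fun a => iSup_mono fun b => iSup_mono fun _ => ?_
  exact ENNReal.div_le_div_right (lintegral_mono h) _

/-- weak type for the maximal function of an integrable function -/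
lemma weak_MM (hweak : S_weak) {g : ℝ → ℂ} (hg : Integrable g) (t : ℝ≥0∞) :
    t * volume {x | t < MM volume (fun y => ‖g y‖ₑ) x} ≤ 2 * ∫⁻ y, ‖g y‖ₑ := by
  have h1 : (fun y => ‖g y‖ₑ) =ᵐ[volume] fun y => ‖hg.1.mk g y‖ₑ := by
    filter_upwards [hg.1.ae_eq_mk] with y hy
    rw [hy]
  rw [MM_congr h1, lintegral_congr_ae h1]
  refine hweak volume (fun a b => ?_) _ ?_ t
  · rw [Real.volume_Ioo]
    exact ENNReal.ofReal_lt_top
  · exact hg.1.stronglyMeasurable_mk.measurable.enorm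

/-- the average over the triple interval is at most the maximal function on the interval -/
lemma av_le_MM (f : ℝ → ℂ) {q r : ℤ × ℤ} (h3 : D3 r ⊆ D3 q) {x : ℝ} (hx : x ∈ DD r) :
    av f r ≤ MM volume (fun y => ‖lo f q y‖ₑ) x := by
  have hp : (0 : ℝ) < 2 ^ r.1 := by positivity
  have h1 : ((r.2 : ℝ) - 1) * 2 ^ r.1 < x ∧ x < ((r.2 : ℝ) + 2) * 2 ^ r.1 := by
    obtain ⟨h1, h2⟩ := hx
    constructor
    · nlinarith
    · nlinarith
  have h2 : av f r = (∫⁻ y in Ioo (((r.2 : ℝ) - 1) * 2 ^ r.1) (((r.2 : ℝ) + 2) * 2 ^ r.1),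
      ‖lo f q y‖ₑ) / volume (Ioo (((r.2 : ℝ) - 1) * 2 ^ r.1) (((r.2 : ℝ) + 2) * 2 ^ r.1)) := by
    unfold av
    congr 1
    · rw [setLIntegral_congr (Ioo_ae_eq_Ico (μ := volume))]
      refine setLIntegral_congr_fun (meas_D3 r) fun y hy => ?_
      change ‖f y‖ₑ = ‖(D3 q).indicator f y‖ₑ
      rw [indicator_of_mem (h3 hy)]
    · exact (measure_congr (Ioo_ae_eq_Ico (μ := volume))).symm
  rw [h2]
  unfold MM
  exact le_iSup_of_le _ (le_iSup_of_le _ (le_iSup_of_le h1 le_rfl))

theorem main : S_weak → S_lin → S_whil → S_kernel → S_stop → S_step := by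
  rintro hweak hlin ⟨Cw, hCw, hwhil⟩ ⟨Ck, hCk, hker⟩ hstop
  obtain ⟨K, hKdef⟩ : ∃ K : ℝ≥0∞, K = 3 * Cw + 6 := ⟨_, rfl⟩
  have hK0 : K ≠ 0 := by
    rw [hKdef]
    simp
  have hKt : K ≠ ⊤ := by
    rw [hKdef]
    exact ENNReal.add_ne_top.2 ⟨ENNReal.mul_ne_top (by norm_num) hCw.ne, by norm_num⟩
  obtain ⟨C1, hC1⟩ : ∃ C1 : ℝ≥0∞, C1 = 32 * K := ⟨_, rfl⟩
  obtain ⟨C2, hC2⟩ : ∃ C2 : ℝ≥0∞, C2 = 8 * K := ⟨_, rfl⟩
  have hC1t : C1 < ⊤ := by
    rw [hC1]
    exact (ENNReal.mul_ne_top (by norm_num) hKt).lt_top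
  have hC2t : C2 < ⊤ := by
    rw [hC2]
    exact (ENNReal.mul_ne_top (by norm_num) hKt).lt_top
  refine ⟨C1 + C2 * C1 + Ck * C1, ?_, ?_⟩
  · exact ENNReal.add_lt_top.2 ⟨ENNReal.add_lt_top.2 ⟨hC1t, ENNReal.mul_lt_top hC2t hC1t⟩,
      ENNReal.mul_lt_top hCk hC1t⟩
  intro f hf q
  -- weak type bounds
  have wH : ∀ (M : ℝ≥0∞) (r : ℤ × ℤ), M * volume {x | M * K * av f r < ‖hilbert (lo f r) x‖ₑ} ≤
      volume (DD r) := by
    intro M r
    refine weak_le _ hK0 hKt (av_ne_top hf r) fun t => (hwhil (lo f r) (int_lo hf r) t).trans ?_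
    rw [lint_lo, hKdef]
    calc Cw * (3 * (av f r * volume (DD r))) = (3 * Cw) * (av f r * volume (DD r)) := by ring
      _ ≤ (3 * Cw + 6) * (av f r * volume (DD r)) := by
        gcongr
        exact le_self_add
  have wM : ∀ (M : ℝ≥0∞) (r : ℤ × ℤ),
      M * volume {x | M * K * av f r < MM volume (fun y => ‖lo f r y‖ₑ) x} ≤ volume (DD r) := by
    intro M r
    refine weak_le _ hK0 hKt (av_ne_top hf r) fun t => (weak_MM hweak (int_lo hf r) t).trans ?_
    rw [lint_lo, hKdef]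
    calc 2 * (3 * (av f r * volume (DD r))) = 6 * (av f r * volume (DD r)) := by ring
      _ ≤ (3 * Cw + 6) * (av f r * volume (DD r)) := by
        gcongr
        exact le_add_self
  -- the exceptional set
  obtain ⟨S1, hS1⟩ : ∃ S1 : Set ℝ, S1 = {x | C1 * av f q < ‖hilbert (lo f q) x‖ₑ} := ⟨_, rfl⟩
  obtain ⟨S2, hS2⟩ : ∃ S2 : Set ℝ, S2 = {x | C1 * av f q < MM volume (fun y => ‖lo f q y‖ₑ) x} :=
    ⟨_, rfl⟩
  have hv1 : 32 * volume S1 ≤ volume (DD q) := by
    rw [hS1, hC1]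
    exact wH 32 q
  have hv2 : 32 * volume S2 ≤ volume (DD q) := by
    rw [hS2, hC1]
    exact wM 32 q
  obtain ⟨E, hE⟩ : ∃ E : Set ℝ, E = toMeasurable volume ((S1 ∪ S2) ∩ DD q) ∩ DD q := ⟨_, rfl⟩
  have hEm : MeasurableSet E := by
    rw [hE]
    exact (measurableSet_toMeasurable _ _).inter (meas_DD q)
  have hEsub : (S1 ∪ S2) ∩ DD q ⊆ E := by
    rw [hE]
    exact subset_inter (subset_toMeasurable _ _) inter_subset_right
  have hEv : 16 * volume E ≤ volume (DD q) := by
    have h1 : volume E ≤ volume S1 + volume S2 := by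
      rw [hE]
      calc volume (toMeasurable volume ((S1 ∪ S2) ∩ DD q) ∩ DD q)
          ≤ volume (toMeasurable volume ((S1 ∪ S2) ∩ DD q)) := measure_mono inter_subset_left
        _ = volume ((S1 ∪ S2) ∩ DD q) := measure_toMeasurable _
        _ ≤ volume (S1 ∪ S2) := measure_mono inter_subset_left
        _ ≤ volume S1 + volume S2 := measure_union_le _ _
    have h2 : 2 * (16 * volume E) ≤ 2 * volume (DD q) := by
      calc 2 * (16 * volume E) = 32 * volume E := by ring
        _ ≤ 32 * (volume S1 + volume S2) := by gcongr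
        _ = 32 * volume S1 + 32 * volume S2 := by ring
        _ ≤ volume (DD q) + volume (DD q) := add_le_add hv1 hv2
        _ = 2 * volume (DD q) := by ring
    exact (ENNReal.mul_le_mul_iff_right (by norm_num) (by norm_num)).1 h2
  obtain ⟨F, hF1, hF2, hF3, hF4, hF5⟩ := hstop q E hEm (by rw [hE]; exact inter_subset_right) hEv
  have hout : ∀ x ∈ DD q, x ∉ E → ‖hilbert (lo f q) x‖ₑ ≤ C1 * av f q ∧
      MM volume (fun y => ‖lo f q y‖ₑ) x ≤ C1 * av f q := by
    intro x hx hxE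
    constructor
    · by_contra hc
      apply hxE
      apply hEsub
      refine ⟨Or.inl ?_, hx⟩
      rw [hS1]
      exact not_le.1 hc
    · by_contra hc
      apply hxE
      apply hEsub
      refine ⟨Or.inr ?_, hx⟩
      rw [hS2]
      exact not_le.1 hc
  refine ⟨F, fun r hr => (hF1 r hr).1, hF2, hF3, ?_, ?_⟩
  · filter_upwards [hF5] with x hx hxq hxF
    have hxE : x ∉ E := by
      intro h
      obtain ⟨r, hr, hxr⟩ := hx h
      exact hxF r hr hxr
    refine (hout x hxq hxE).1.trans ?_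
    gcongr
    rw [add_assoc]
    exact le_self_add
  · intro r hr
    obtain ⟨hrq, hr3⟩ := hF1 r hr
    obtain ⟨g2, hg2⟩ : ∃ g2 : ℝ → ℂ, g2 = (D3 q \ D3 r).indicator f := ⟨_, rfl⟩
    have hg2i : Integrable g2 := by
      rw [hg2]
      exact hf.indicator ((meas_D3 q).diff (meas_D3 r))
    have hg20 : ∀ y ∈ D3 r, g2 y = 0 := by
      intro y hy
      rw [hg2]
      exact indicator_of_notMem (fun h => h.2 hy) _
    have hsum : (fun y => lo f r y + g2 y) = lo f q := by
      funext y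
      rw [hg2]
      change (D3 r).indicator f y + (D3 q \ D3 r).indicator f y = (D3 q).indicator f y
      by_cases h1 : y ∈ D3 r
      · rw [indicator_of_mem h1, indicator_of_notMem (fun h => h.2 h1), indicator_of_mem (hr3 h1),
          add_zero]
      · by_cases h2 : y ∈ D3 q
        · rw [indicator_of_notMem h1, indicator_of_mem (show y ∈ D3 q \ D3 r from ⟨h2, h1⟩),
            indicator_of_mem h2, zero_add]
        · rw [indicator_of_notMem h1, indicator_of_notMem (fun h => h2 h.1),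
            indicator_of_notMem h2, zero_add]
    have hadd : ∀ᵐ x, hilbert (lo f q) x = hilbert (lo f r) x + hilbert g2 x := by
      have := hlin (lo f r) g2 (int_lo hf r) hg2i
      rwa [hsum] at this
    -- a good point
    obtain ⟨x', hx', hx'E, hx'H, hx'a⟩ : ∃ x' ∈ DD r, x' ∉ E ∧
        ‖hilbert (lo f r) x'‖ₑ ≤ C2 * av f r ∧
        hilbert (lo f q) x' = hilbert (lo f r) x' + hilbert g2 x' := by
      by_contra hcon
      push_neg at hcon
      have hcov : DD r ⊆ (DD r ∩ E) ∪ ({x | C2 * av f r < ‖hilbert (lo f r) x‖ₑ} ∪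
          {x | ¬ hilbert (lo f q) x = hilbert (lo f r) x + hilbert g2 x}) := by
        intro x hx
        by_cases h1 : x ∈ E
        · exact Or.inl ⟨hx, h1⟩
        · by_cases h2 : ‖hilbert (lo f r) x‖ₑ ≤ C2 * av f r
          · exact Or.inr (Or.inr (hcon x hx h1 h2))
          · exact Or.inr (Or.inl (not_le.1 h2))
      have hnull : volume {x | ¬ hilbert (lo f q) x = hilbert (lo f r) x + hilbert g2 x} = 0 := hadd
      have h8 : 8 * volume {x | C2 * av f r < ‖hilbert (lo f r) x‖ₑ} ≤ volume (DD r) := by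
        rw [hC2]
        exact wH 8 r
      have h4 := hF4 r hr
      have h5 : 8 * volume (DD r) ≤ 5 * volume (DD r) := by
        calc 8 * volume (DD r) ≤ 8 * (volume (DD r ∩ E) +
              (volume {x | C2 * av f r < ‖hilbert (lo f r) x‖ₑ} +
              volume {x | ¬ hilbert (lo f q) x = hilbert (lo f r) x + hilbert g2 x})) := by
              gcongr
              exact (measure_mono hcov).trans ((measure_union_le _ _).trans
                (add_le_add le_rfl (measure_union_le _ _)))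
          _ = 4 * (2 * volume (DD r ∩ E)) +
              8 * volume {x | C2 * av f r < ‖hilbert (lo f r) x‖ₑ} := by
              rw [hnull]; ring
          _ ≤ 4 * volume (DD r) + volume (DD r) := by gcongr
          _ = 5 * volume (DD r) := by ring
      have h6 := (ENNReal.mul_le_mul_iff_left (vol_ne_zero r) (vol_ne_top r)).1 h5
      norm_num at h6
    obtain ⟨hx1, hx2⟩ := hout x' (hrq hx') hx'E
    have hav : av f r ≤ C1 * av f q := (av_le_MM f hr3 hx').trans hx2
    have hMM2 : MM volume (fun y => ‖g2 y‖ₑ) x' ≤ C1 * av f q := by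
      refine (MM_mono (fun y => ?_) x').trans hx2
      rw [hg2]
      change ‖(D3 q \ D3 r).indicator f y‖ₑ ≤ ‖(D3 q).indicator f y‖ₑ
      by_cases h1 : y ∈ D3 q \ D3 r
      · rw [indicator_of_mem h1, indicator_of_mem h1.1]
      · rw [indicator_of_notMem h1, enorm_zero]
        exact zero_le'
    have hg2x' : ‖hilbert g2 x'‖ₑ ≤ (C1 + C2 * C1) * av f q := by
      have e : hilbert g2 x' = hilbert (lo f q) x' - hilbert (lo f r) x' := by
        rw [hx'a]; ring
      rw [e]
      calc ‖hilbert (lo f q) x' - hilbert (lo f r) x'‖ₑ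
          ≤ ‖hilbert (lo f q) x'‖ₑ + ‖hilbert (lo f r) x'‖ₑ := enorm_sub_le
        _ ≤ C1 * av f q + C2 * (C1 * av f q) := by
          refine add_le_add hx1 (hx'H.trans ?_)
          gcongr
        _ = (C1 + C2 * C1) * av f q := by ring
    filter_upwards [hadd] with x hxa hx
    have hk := hker g2 hg2i r hg20 x hx x' hx'
    have hg2x : ‖hilbert g2 x‖ₑ ≤ (C1 + C2 * C1 + Ck * C1) * av f q := by
      calc ‖hilbert g2 x‖ₑ = ‖hilbert g2 x' + (hilbert g2 x - hilbert g2 x')‖ₑ := by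
            congr 1; ring
        _ ≤ ‖hilbert g2 x'‖ₑ + ‖hilbert g2 x - hilbert g2 x'‖ₑ := enorm_add_le _ _
        _ ≤ (C1 + C2 * C1) * av f q + Ck * (C1 * av f q) := by
          refine add_le_add hg2x' (hk.trans ?_)
          gcongr
        _ = (C1 + C2 * C1 + Ck * C1) * av f q := by ring
    rw [hxa]
    exact (enorm_add_le _ _).trans (add_le_add le_rfl hg2x)

end Pool.Agent.U263.HW.STEP
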